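import Mathlib
import Pool.Agent.H588R3.FC.Word

set_option autoImplicit false

/-!
# The product rule along the insertion flow
-/

namespace Pool.Agent.H588R3.FC

variable {P : List (Fin 4) → ℝ}

/-- Cauchy product of coefficients. -/
noncomputable def conv (P : List (Fin 4) → ℝ) (k : ℕ) (x y : List (Fin 4)) : ℝ :=
  ∑ p ∈ Finset.HasAntidiagonal.antidiagonal k, C P p.1 x * C P p.2 y

theorem conv_succ (k : ℕ) (x y : List (Fin 4)) :
    (2 * (k + 1) : ℝ) * conv P (k + 1) x y =
      ∑ p ∈ Finset.HasAntidiagonal.antidiagonal k,
        ((2 * (p.1 + 1) : ℝ) * C P (p.1 + 1) x) * C P p.2 y +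
      ∑ p ∈ Finset.HasAntidiagonal.antidiagonal k,
        C P p.1 x * ((2 * (p.2 + 1) : ℝ) * C P (p.2 + 1) y) := by
  let A : List (Fin 4) → PowerSeries ℝ := fun w => PowerSeries.mk (fun k => C P k w)
  have h : PowerSeries.derivative ℝ (A x * A y) =
      A x • PowerSeries.derivative ℝ (A y) + A y • PowerSeries.derivative ℝ (A x) :=
    Derivation.leibniz _ _ _
  have h2 := congrArg (PowerSeries.coeff k) h
  rw [PowerSeries.coeff_derivative, PowerSeries.coeff_mul, map_add, smul_eq_mul, smul_eq_mul,
    PowerSeries.coeff_mul, mul_comm (A y), PowerSeries.coeff_mul] at h2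
  simp only [PowerSeries.coeff_derivative, A, PowerSeries.coeff_mk] at h2
  unfold conv
  have h3 : (2 * (k + 1) : ℝ) * ∑ p ∈ Finset.HasAntidiagonal.antidiagonal (k + 1),
      C P p.1 x * C P p.2 y = 2 * ((∑ p ∈ Finset.HasAntidiagonal.antidiagonal (k + 1),
      C P p.1 x * C P p.2 y) * (k + 1)) := by ring
  rw [h3, h2, add_comm, mul_add, Finset.mul_sum, Finset.mul_sum]
  congr 1
  · apply Finset.sum_congr rfl
    intro p _
    ring
  · apply Finset.sum_congr rfl
    intro p _
    ring

theorem sdel_conv_left (k : ℕ) {x : List (Fin 4)} (y : List (Fin 4)) (hx0 : x ≠ [])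
    (hx : Proper x) :
    ∑ p ∈ Finset.HasAntidiagonal.antidiagonal k,
      ((2 * (p.1 + 1) : ℝ) * C P (p.1 + 1) x) * C P p.2 y = sdel (fun m => conv P k m y) x := by
  unfold conv
  rw [← sdel_sum]
  apply Finset.sum_congr rfl
  intro p _
  have e : (fun m => C P p.1 m * C P p.2 y) = fun m => C P p.2 y * C P p.1 m := by
    funext m; ring
  rw [e, sdel_mul, C_succ p.1 hx0 hx]
  ring

theorem sdel_conv_right (k : ℕ) (x : List (Fin 4)) {y : List (Fin 4)} (hy0 : y ≠ [])
    (hy : Proper y) :
    ∑ p ∈ Finset.HasAntidiagonal.antidiagonal k,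
      C P p.1 x * ((2 * (p.2 + 1) : ℝ) * C P (p.2 + 1) y) = sdel (fun m => conv P k x m) y := by
  unfold conv
  rw [← sdel_sum]
  apply Finset.sum_congr rfl
  intro p _
  rw [sdel_mul, C_succ p.2 hy0 hy]

theorem C_nil_succ (hP : WLaw P) (i : ℕ) : (2 * (i + 1) : ℝ) * C P (i + 1) [] =
    if i = 0 then 2 else 0 := by
  rw [C_nil hP]
  cases i with
  | zero => simp
  | succ i =>
    rw [Nat.choose_eq_zero_of_lt (by omega)]
    simp

theorem conv_nil_left (hP : WLaw P) (k : ℕ) (y : List (Fin 4)) :
    ∑ p ∈ Finset.HasAntidiagonal.antidiagonal k,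
      ((2 * (p.1 + 1) : ℝ) * C P (p.1 + 1) []) * C P p.2 y = 2 * C P k y := by
  cases k with
  | zero =>
    have h0 := C_nil_succ hP 0
    simp at h0
    simp [h0]
  | succ k =>
    rw [Finset.Nat.sum_antidiagonal_succ]
    have : ∑ p ∈ Finset.HasAntidiagonal.antidiagonal k,
        (2 * (((p.1 + 1 : ℕ) : ℝ) + 1) * C P (p.1 + 1 + 1) []) * C P p.2 y = 0 := by
      apply Finset.sum_eq_zero
      intro p _
      rw [C_nil_succ hP]; simp
    rw [this]
    have h0 := C_nil_succ hP 0
    rw [h0]
    simp

theorem conv_nil_right (hP : WLaw P) (k : ℕ) (x : List (Fin 4)) :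
    ∑ p ∈ Finset.HasAntidiagonal.antidiagonal k,
      C P p.1 x * ((2 * (p.2 + 1) : ℝ) * C P (p.2 + 1) []) = 2 * C P k x := by
  rw [← conv_nil_left hP k x, ← Finset.Nat.sum_antidiagonal_swap]
  apply Finset.sum_congr rfl
  intro p _
  simp only [Prod.fst_swap, Prod.snd_swap]
  ring

theorem C_prod (hP : WLaw P) (k : ℕ) : ∀ x y : List (Fin 4),
    ∑ a, C P k (x ++ a :: y) = conv P k x y := by
  induction k with
  | zero =>
    intro x y
    have := hP.mid x y
    simpa [conv, C] using this
  | succ k ih =>
    intro x y
    by_cases hx : Proper x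
    · by_cases hy : Proper y
      · have hk : (2 * (k + 1) : ℝ) ≠ 0 := by positivity
        apply mul_left_cancel₀ hk
        rw [conv_succ, Finset.mul_sum]
        simp only [C_mid hP k hx hy]
        rw [Finset.sum_add_distrib, Finset.sum_add_distrib, sdel_sum, sdel_sum,
          ← Finset.sum_mul, Finset.sum_sub_distrib, Finset.sum_sub_distrib, ← Finset.mul_sum,
          ← Finset.mul_sum, sum_last, sum_head]
        have s1 : (fun m => ∑ a, C P k (m ++ a :: y)) = fun m => conv P k m y := by
          funext m; exact ih m y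
        have s2 : (fun m => ∑ a, C P k (x ++ a :: m)) = fun m => conv P k x m := by
          funext m; exact ih x m
        have h4 : ∑ _a : Fin 4, (1 : ℝ) = 4 := by simp
        rw [s1, s2, h4]
        by_cases hx0 : x = []
        · subst hx0
          by_cases hy0 : y = []
          · subst hy0
            rw [conv_nil_left hP, conv_nil_right hP]
            simp [sdel]
            ring
          · rw [conv_nil_left hP, sdel_conv_right k [] hy0 hy, if_pos rfl, if_neg hy0]
            simp only [sdel, List.nil_append]
            ring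
        · by_cases hy0 : y = []
          · subst hy0
            rw [conv_nil_right hP, sdel_conv_left k [] hx0 hx, if_pos rfl, if_neg hx0]
            simp only [sdel, List.append_nil]
            ring
          · rw [sdel_conv_left k y hx0 hx, sdel_conv_right k x hy0 hy, if_neg hx0, if_neg hy0]
            ring
      · have e1 : conv P (k + 1) x y = 0 := by
          unfold conv
          apply Finset.sum_eq_zero
          intro p _
          rw [C_improper hP p.2 hy, mul_zero]
        rw [e1]
        apply Finset.sum_eq_zero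
        intro a _
        have := not_proper_right (x := x ++ [a]) hy
        apply C_improper hP
        simpa using this
    · have e1 : conv P (k + 1) x y = 0 := by
        unfold conv
        apply Finset.sum_eq_zero
        intro p _
        rw [C_improper hP p.1 hx, zero_mul]
      rw [e1]
      apply Finset.sum_eq_zero
      intro a _
      have := not_proper_left (y := a :: y) hx
      exact C_improper hP _ this

theorem C_big (hP : WLaw P) : ∀ (k : ℕ) (w : List (Fin 4)), w.length + 1 < k → C P k w = 0 := by
  intro k
  induction k with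
  | zero => intro w h; omega
  | succ k ih =>
    intro w h
    cases w with
    | nil =>
      rw [C_nil hP]
      simp only [List.length_nil] at h
      rw [Nat.choose_eq_zero_of_lt h]; simp
    | cons a w =>
      simp only [C]
      split_ifs
      · have : sdel (C P k) (a :: w) = sdel (fun _ => (0 : ℝ)) (a :: w) := by
          apply sdel_congr
          intro m hm
          apply ih
          omega
        rw [this, sdel_zero]; simp
      · rfl

/-- The generating polynomial of a word. -/
noncomputable def pol (P : List (Fin 4) → ℝ) (w : List (Fin 4)) : Polynomial ℝ :=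
  ∑ k ∈ Finset.range (w.length + 2), Polynomial.monomial k (C P k w)

theorem coeff_pol (hP : WLaw P) (w : List (Fin 4)) (k : ℕ) : (pol P w).coeff k = C P k w := by
  unfold pol
  rw [Polynomial.finsetSum_coeff]
  simp only [Polynomial.coeff_monomial]
  rw [Finset.sum_ite_eq']
  split_ifs with h
  · rfl
  · rw [C_big hP]
    simp only [Finset.mem_range, not_lt] at h
    omega

theorem pol_prod (hP : WLaw P) (x y : List (Fin 4)) :
    ∑ a, pol P (x ++ a :: y) = pol P x * pol P y := by
  ext k
  rw [Polynomial.coeff_mul, Polynomial.finsetSum_coeff]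
  simp only [coeff_pol hP]
  rw [C_prod hP k x y]
  rfl

theorem pol_nil (hP : WLaw P) : pol P [] = 1 + Polynomial.X := by
  ext k
  rw [coeff_pol hP, C_nil hP]
  have := Polynomial.coeff_one_add_X_pow ℝ 1 k
  rw [pow_one] at this
  rw [this]

/-- The insertion flow at time `t`. -/
noncomputable def flow (P : List (Fin 4) → ℝ) (t : ℝ) (w : List (Fin 4)) : ℝ :=
  (pol P w).eval t / (1 + t) ^ (w.length + 1)

theorem flow_law (hP : WLaw P) {t : ℝ} (ht : 0 ≤ t) : WLaw (flow P t) := by
  have h1 : (1 + t) ≠ 0 := by positivity
  refine ⟨?_, ?_, ?_, ?_⟩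
  · intro w
    unfold flow
    apply div_nonneg _ (by positivity)
    unfold pol
    rw [Polynomial.eval_finsetSum]
    apply Finset.sum_nonneg
    intro k _
    rw [Polynomial.eval_monomial]
    exact mul_nonneg (C_nonneg hP k w) (by positivity)
  · unfold flow
    rw [pol_nil hP]
    simp only [Polynomial.eval_add, Polynomial.eval_one, Polynomial.eval_X,
      List.length_nil, zero_add, pow_one]
    exact div_self h1
  · intro w hw
    unfold flow pol
    rw [Polynomial.eval_finsetSum, Finset.sum_eq_zero, zero_div]
    intro k _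
    rw [C_improper hP k hw]
    simp
  · intro x y
    have h := congrArg (Polynomial.eval t) (pol_prod hP x y)
    rw [Polynomial.eval_finsetSum, Polynomial.eval_mul] at h
    unfold flow
    have e : ∀ a : Fin 4, (x ++ a :: y).length + 1 = (x.length + 1) + (y.length + 1) := by
      intro a; simp; omega
    simp only [e]
    simp only [← Finset.sum_div]
    rw [h, pow_add]
    field_simp

theorem flow_zero (hP : WLaw P) (w : List (Fin 4)) : flow P 0 w = P w := by
  unfold flow
  rw [← Polynomial.coeff_zero_eq_eval_zero, coeff_pol hP]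
  simp [C]

end Pool.Agent.H588R3.FC
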