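import Mathlib
import Pool.Agent.H588R3.FC.Prod

set_option autoImplicit false

/-!
# The path of laws from the Holroyd-Liggett law to a given law
-/

namespace Pool.Agent.H588R3.FC

open Filter Topology

variable {P Q : List (Fin 4) → ℝ}

/-- The law at parameter `u` on the path started at the Holroyd-Liggett law (`u = 0`) and ending
at `P` (`u = 1`). -/
noncomputable def fl (P : List (Fin 4) → ℝ) (u : ℝ) (w : List (Fin 4)) : ℝ :=
  ∑ k ∈ Finset.range (w.length + 2), C P k w * (1 - u) ^ k * u ^ (w.length + 1 - k)

theorem fl_eq_flow {u : ℝ} (hu : 0 < u) (w : List (Fin 4)) :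
    fl P u w = flow P ((1 - u) / u) w := by
  unfold fl flow pol
  rw [Polynomial.eval_finsetSum, Finset.sum_div]
  have h1 : 1 + (1 - u) / u = u⁻¹ := by field_simp; ring
  rw [h1]
  apply Finset.sum_congr rfl
  intro k hk
  have hk' : k ≤ w.length + 1 := by
    have := Finset.mem_range.1 hk
    omega
  rw [Polynomial.eval_monomial]
  have h2 : u ^ (w.length + 1) = u ^ (w.length + 1 - k) * u ^ k := by
    rw [← pow_add]; congr 1; omega
  rw [inv_pow, div_pow, div_inv_eq_mul, h2]
  field_simp

theorem WLaw.of_tendsto {Q : ℕ → List (Fin 4) → ℝ} {R : List (Fin 4) → ℝ}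
    (hQ : ∀ n, WLaw (Q n)) (h : ∀ w, Tendsto (fun n => Q n w) atTop (𝓝 (R w))) : WLaw R := by
  refine ⟨?_, ?_, ?_, ?_⟩
  · intro w
    exact ge_of_tendsto' (h w) (fun n => (hQ n).nonneg w)
  · have : (fun n => Q n []) = fun _ => (1 : ℝ) := by
      funext n; exact (hQ n).nil
    exact tendsto_nhds_unique (h []) (by rw [this]; exact tendsto_const_nhds)
  · intro w hw
    have : (fun n => Q n w) = fun _ => (0 : ℝ) := by
      funext n; exact (hQ n).improper w hw
    exact tendsto_nhds_unique (h w) (by rw [this]; exact tendsto_const_nhds)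
  · intro x y
    have h1 : Tendsto (fun n => ∑ a, Q n (x ++ a :: y)) atTop
        (𝓝 (∑ a, R (x ++ a :: y))) :=
      tendsto_finsetSum _ (fun a _ => h _)
    have : (fun n => ∑ a, Q n (x ++ a :: y)) = fun n => Q n x * Q n y := by
      funext n; exact (hQ n).mid x y
    rw [this] at h1
    exact tendsto_nhds_unique h1 ((h x).mul (h y))

theorem continuous_fl (w : List (Fin 4)) : Continuous (fun u => fl P u w) := by
  unfold fl
  fun_prop

theorem fl_law_pos (hP : WLaw P) {u : ℝ} (hu : 0 < u) (hu1 : u ≤ 1) : WLaw (fl P u) := by
  have : fl P u = flow P ((1 - u) / u) := by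
    funext w; exact fl_eq_flow hu w
  rw [this]
  exact flow_law hP (div_nonneg (by linarith) hu.le)

theorem fl_law (hP : WLaw P) {u : ℝ} (hu : 0 ≤ u) (hu1 : u ≤ 1) : WLaw (fl P u) := by
  rcases hu.eq_or_lt with rfl | hu
  · apply WLaw.of_tendsto (Q := fun n : ℕ => fl P (1 / ((n : ℝ) + 1)))
    · intro n
      apply fl_law_pos hP
      · positivity
      · rw [div_le_one (by positivity)]
        have : (0 : ℝ) ≤ n := Nat.cast_nonneg n
        linarith
    · intro w
      exact ((continuous_fl w).tendsto 0).comp tendsto_one_div_add_atTop_nhds_zero_nat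
  · exact fl_law_pos hP hu hu1

theorem fl_one (hP : WLaw P) : fl P 1 = P := by
  funext w
  rw [fl_eq_flow one_pos]
  simpa using flow_zero hP w

/-- The Holroyd-Liggett weights, by recursion on the length. -/
noncomputable def hlAux : ℕ → List (Fin 4) → ℝ
  | 0, _ => 1
  | n + 1, w => if Proper w then sdel (hlAux n) w / (2 * (n + 2)) else 0

/-- The word probabilities of the Holroyd-Liggett 1-dependent 4-colouring. -/
noncomputable def hl (w : List (Fin 4)) : ℝ := hlAux w.length w

theorem hl_nil : hl [] = 1 := rfl

theorem hl_improper {w : List (Fin 4)} (hw : ¬ Proper w) : hl w = 0 := by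
  cases w with
  | nil => exact absurd (by simp [Proper]) hw
  | cons a w =>
    show (if Proper (a :: w) then sdel (hlAux w.length) (a :: w) / (2 * (w.length + 2)) else 0) = 0
    rw [if_neg hw]

theorem hl_rec {w : List (Fin 4)} (hw : w ≠ []) (hp : Proper w) :
    (2 * ((w.length : ℝ) + 1)) * hl w = sdel hl w := by
  cases w with
  | nil => exact absurd rfl hw
  | cons a w =>
    have e : hl (a :: w) = sdel (hlAux w.length) (a :: w) / (2 * (w.length + 2)) := by
      show (if Proper (a :: w) then sdel (hlAux w.length) (a :: w) / (2 * (w.length + 2)) else 0) = _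
      rw [if_pos hp]
    have e2 : sdel (hlAux w.length) (a :: w) = sdel hl (a :: w) := by
      apply sdel_congr
      intro m hm
      simp only [List.length_cons, Nat.add_right_cancel_iff] at hm
      unfold hl
      rw [hm]
    rw [e, e2]
    have : (2 * ((w.length : ℝ) + 2)) ≠ 0 := by positivity
    simp only [List.length_cons]
    push_cast
    have e3 : (2 * ((w.length : ℝ) + 1 + 1)) = 2 * ((w.length : ℝ) + 2) := by ring
    rw [e3, mul_div_cancel₀ _ this]

theorem C_top (hP : WLaw P) (w : List (Fin 4)) : C P (w.length + 1) w = hl w := by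
  have key : ∀ (n : ℕ) (w : List (Fin 4)), w.length = n → C P (n + 1) w = hl w := by
    intro n
    induction n with
    | zero =>
      intro w hw
      have : w = [] := List.length_eq_zero_iff.1 hw
      subst this
      rw [C_nil hP, hl_nil]
      norm_num
    | succ n ih =>
      intro w hw
      have hw0 : w ≠ [] := by rintro rfl; simp at hw
      by_cases hp : Proper w
      · have h1 := C_succ (P := P) (n + 1) hw0 hp
        have h2 := hl_rec hw0 hp
        rw [hw] at h2
        have h3 : sdel (C P (n + 1)) w = sdel hl w := by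
          apply sdel_congr
          intro m hm
          exact ih m (by omega)
        rw [h3, ← h2] at h1
        push_cast at h1
        have h4 : (2 * ((n : ℝ) + 1 + 1)) ≠ 0 := by positivity
        exact mul_left_cancel₀ h4 h1
      · rw [C_improper hP _ hp, hl_improper hp]
  exact key w.length w rfl

theorem fl_zero (hP : WLaw P) : fl P 0 = hl := by
  funext w
  unfold fl
  rw [Finset.sum_eq_single (w.length + 1)]
  · rw [C_top hP w]; simp
  · intro k hk hk'
    have := Finset.mem_range.1 hk
    have h : w.length + 1 - k ≠ 0 := by omega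
    rw [zero_pow h, mul_zero]
  · intro h
    exact absurd (Finset.mem_range.2 (by omega)) h

theorem hl_law (hP : WLaw P) : WLaw hl := by
  rw [← fl_zero hP]
  exact fl_law hP le_rfl zero_le_one

/-- If two laws agree on short words then all coefficients agree on short words. -/
theorem C_congr (hP : WLaw P) (hQ : WLaw Q) {n : ℕ}
    (h : ∀ w : List (Fin 4), w.length < n → P w = Q w) (k : ℕ) :
    ∀ w : List (Fin 4), w.length < n → C P k w = C Q k w := by
  induction k with
  | zero => intro w hw; exact h w hw
  | succ k ih =>
    intro w hw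
    cases w with
    | nil => rw [C_nil hP, C_nil hQ]
    | cons a w =>
      simp only [C]
      split_ifs
      · congr 1
        apply sdel_congr
        intro m hm
        apply ih
        omega
      · rfl

theorem C_congr_succ (hP : WLaw P) (hQ : WLaw Q) {n : ℕ}
    (h : ∀ w : List (Fin 4), w.length < n → P w = Q w) (k : ℕ) (w : List (Fin 4))
    (hw : w.length = n) : C P (k + 1) w = C Q (k + 1) w := by
  cases w with
  | nil => rw [C_nil hP, C_nil hQ]
  | cons a w =>
    simp only [C]
    split_ifs
    · congr 1
      apply sdel_congr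
      intro m hm
      apply C_congr hP hQ h
      omega
    · rfl

theorem C_hl (hh : WLaw hl) (k : ℕ) : ∀ w : List (Fin 4),
    C hl k w = ((w.length + 1).choose k : ℕ) * hl w := by
  induction k with
  | zero => intro w; simp [C]
  | succ k ih =>
    intro w
    by_cases hw0 : w = []
    · subst hw0
      rw [C_nil hh, hl_nil]; simp
    · by_cases hp : Proper w
      · have h1 := C_succ (P := hl) k hw0 hp
        have h2 : sdel (C hl k) w = ((w.length).choose k : ℕ) * sdel hl w := by
          rw [← sdel_mul]
          apply sdel_congr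
          intro m hm
          rw [ih m]
          congr 3
        rw [h2, ← hl_rec hw0 hp] at h1
        have h3 := Nat.add_one_mul_choose_eq w.length k
        have h4 : ((w.length + 1 : ℕ) : ℝ) * ((w.length).choose k : ℕ) =
            ((w.length + 1).choose (k + 1) : ℕ) * ((k + 1 : ℕ) : ℝ) := by exact_mod_cast h3
        push_cast at h4
        have h5 : (2 * (k + 1) : ℝ) ≠ 0 := by positivity
        apply mul_left_cancel₀ h5
        rw [h1]
        linear_combination 2 * hl w * h4
      · rw [C_improper hh _ hp, hl_improper hp, mul_zero]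

theorem fl_hl (hh : WLaw hl) (u : ℝ) : fl hl u = hl := by
  funext w
  unfold fl
  have h1 := add_pow (1 - u) u (w.length + 1)
  have h2 : (1 - u + u) = 1 := by ring
  rw [h2, one_pow] at h1
  calc ∑ k ∈ Finset.range (w.length + 2), C hl k w * (1 - u) ^ k * u ^ (w.length + 1 - k)
      = hl w * ∑ m ∈ Finset.range (w.length + 1 + 1),
          (1 - u) ^ m * u ^ (w.length + 1 - m) * ((w.length + 1).choose m : ℕ) := by
        rw [Finset.mul_sum]
        apply Finset.sum_congr rfl
        intro k _
        rw [C_hl hh]
        ring
    _ = hl w := by rw [← h1, mul_one]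

/-- The first deviation from the Holroyd-Liggett law is multiplied by `u ^ (n + 1)`. -/
theorem fl_dev (hP : WLaw P) {n : ℕ}
    (h : ∀ w : List (Fin 4), w.length < n → P w = hl w) (w : List (Fin 4))
    (hw : w.length = n) (u : ℝ) : fl P u w - hl w = u ^ (n + 1) * (P w - hl w) := by
  have hh := hl_law hP
  have e : hl w = fl hl u w := by rw [fl_hl hh]
  calc fl P u w - hl w = fl P u w - fl hl u w := by rw [← e]
    _ = ∑ k ∈ Finset.range (w.length + 2),
          (C P k w - C hl k w) * (1 - u) ^ k * u ^ (w.length + 1 - k) := by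
        unfold fl
        rw [← Finset.sum_sub_distrib]
        apply Finset.sum_congr rfl
        intro k _
        ring
    _ = u ^ (n + 1) * (P w - hl w) := by
        rw [Finset.sum_range_succ']
        rw [Finset.sum_eq_zero]
        · rw [hw]
          simp [C]
          ring
        · intro k _
          rw [C_congr_succ hP hh h k w hw]
          ring

theorem fl_inj (hP : WLaw P) (hne : P ≠ hl) {u v : ℝ} (hu : 0 ≤ u) (hv : 0 ≤ v)
    (h : fl P u = fl P v) : u = v := by
  classical
  have hex : ∃ n : ℕ, ∃ w : List (Fin 4), w.length = n ∧ P w ≠ hl w := by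
    by_contra hc
    push Not at hc
    exact hne (funext fun w => hc w.length w rfl)
  let n := Nat.find hex
  obtain ⟨w, hw, hwne⟩ := Nat.find_spec hex
  have hmin : ∀ w' : List (Fin 4), w'.length < n → P w' = hl w' := by
    intro w' hw'
    by_contra hc
    exact Nat.find_min hex hw' ⟨w', rfl, hc⟩
  have h1 := fl_dev hP hmin w hw u
  have h2 := fl_dev hP hmin w hw v
  rw [h, h2] at h1
  have h3 : v ^ (n + 1) = u ^ (n + 1) := mul_right_cancel₀ (sub_ne_zero.2 hwne) h1
  exact (pow_left_inj₀ hu hv (by omega : n + 1 ≠ 0)).1 h3.symm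

end Pool.Agent.H588R3.FC
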