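import Mathlib
import Pool.Agent.H588R3.FC.Path

set_option autoImplicit false

/-!
# The Holroyd-Liggett weights form the word law of a 1-dependent 4-colouring
-/

namespace Pool.Agent.H588R3.FC

theorem hl_nonneg : ∀ (n : ℕ) (w : List (Fin 4)), 0 ≤ hlAux n w := by
  intro n
  induction n with
  | zero => intro w; simp [hlAux]
  | succ n ih =>
    intro w
    simp only [hlAux]
    split_ifs
    · exact div_nonneg (sdel_nonneg _ ih _) (by positivity)
    · exact le_rfl

theorem hl_mid1 {x y : List (Fin 4)} (hx : Proper x) (hy : Proper y) (a : Fin 4) :
    (2 * ((x.length : ℝ) + y.length + 2)) * hl (x ++ a :: y) =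
      sdel (fun m => hl (m ++ a :: y)) x + sdel (fun m => hl (x ++ a :: m)) y +
      (1 - 2 * (if x.getLast? = some a then 1 else 0) -
        2 * (if y.head? = some a then 1 else 0)) * hl (x ++ y) := by
  by_cases h1 : x.getLast? = some a
  · obtain ⟨x', rfl⟩ : ∃ x', x = x' ++ [a] := by
      rw [List.getLast?_eq_some_iff] at h1
      exact h1
    have e0 : hl (x' ++ [a] ++ a :: y) = 0 := by
      apply hl_improper
      have := not_proper_double x' y a
      simpa using this
    have e1 : sdel (fun m => hl (m ++ a :: y)) (x' ++ [a]) = hl (x' ++ [a] ++ y) := by
      rw [sdel_append]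
      have : (fun m => hl (m ++ [a] ++ a :: y)) = fun _ => (0 : ℝ) := by
        funext m
        apply hl_improper
        have := not_proper_double m y a
        simpa using this
      rw [this, sdel_zero]
      simp [sdel]
    have e2 : sdel (fun m => hl (x' ++ [a] ++ a :: m)) y = 0 := by
      have : (fun m => hl (x' ++ [a] ++ a :: m)) = fun _ => (0 : ℝ) := by
        funext m
        apply hl_improper
        have := not_proper_double x' m a
        simpa using this
      rw [this, sdel_zero]
    rw [e0, e1, e2, if_pos h1]
    by_cases h2 : y.head? = some a
    · obtain ⟨y', rfl⟩ : ∃ y', y = a :: y' := by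
        cases y with
        | nil => simp at h2
        | cons c y' => simp only [List.head?_cons, Option.some.injEq] at h2; exact ⟨y', by rw [h2]⟩
      have e3 : hl (x' ++ [a] ++ a :: y') = 0 := by
        apply hl_improper
        have := not_proper_double x' y' a
        simpa using this
      rw [e3]; ring
    · rw [if_neg h2]; ring
  · by_cases h2 : y.head? = some a
    · obtain ⟨y', rfl⟩ : ∃ y', y = a :: y' := by
        cases y with
        | nil => simp at h2
        | cons c y' => simp only [List.head?_cons, Option.some.injEq] at h2; exact ⟨y', by rw [h2]⟩
      have e0 : hl (x ++ a :: a :: y') = 0 := hl_improper (not_proper_double x y' a)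
      have e1 : sdel (fun m => hl (m ++ a :: a :: y')) x = 0 := by
        have : (fun m => hl (m ++ a :: a :: y')) = fun _ => (0 : ℝ) := by
          funext m
          exact hl_improper (not_proper_double m y' a)
        rw [this, sdel_zero]
      have e2 : sdel (fun m => hl (x ++ a :: m)) (a :: y') = hl (x ++ a :: y') := by
        simp only [sdel]
        have : (fun m => hl (x ++ a :: a :: m)) = fun _ => (0 : ℝ) := by
          funext m
          exact hl_improper (not_proper_double x m a)
        rw [this, sdel_zero, add_zero]
      rw [e0, e1, e2, if_neg h1, if_pos h2]
      ring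
    · have hp := proper_mid hx hy h1 h2
      have h3 := hl_rec (w := x ++ a :: y) (by simp) hp
      rw [sdel_append] at h3
      simp only [sdel, List.length_append, List.length_cons] at h3
      push_cast at h3
      rw [if_neg h1, if_neg h2]
      linarith

theorem hl_prod (n : ℕ) : ∀ x y : List (Fin 4), x.length + y.length = n →
    ∑ a, hl (x ++ a :: y) = hl x * hl y := by
  induction n using Nat.strong_induction_on with
  | _ n ih =>
    intro x y hn
    by_cases hx : Proper x
    · by_cases hy : Proper y
      · have hk : (2 * ((x.length : ℝ) + y.length + 2)) ≠ 0 := by positivity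
        apply mul_left_cancel₀ hk
        rw [Finset.mul_sum]
        simp only [hl_mid1 hx hy]
        rw [Finset.sum_add_distrib, Finset.sum_add_distrib, sdel_sum, sdel_sum,
          ← Finset.sum_mul, Finset.sum_sub_distrib, Finset.sum_sub_distrib, ← Finset.mul_sum,
          ← Finset.mul_sum, sum_last, sum_head]
        have s1 : sdel (fun m => ∑ a, hl (m ++ a :: y)) x = sdel (fun m => hl y * hl m) x := by
          apply sdel_congr
          intro m hm
          rw [ih (m.length + y.length) (by omega) m y rfl, mul_comm]
        have s2 : sdel (fun m => ∑ a, hl (x ++ a :: m)) y = sdel (fun m => hl x * hl m) y := by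
          apply sdel_congr
          intro m hm
          rw [ih (x.length + m.length) (by omega) x m rfl]
        have h4 : ∑ _a : Fin 4, (1 : ℝ) = 4 := by simp
        rw [s1, s2, h4, sdel_mul, sdel_mul]
        by_cases hx0 : x = []
        · subst hx0
          by_cases hy0 : y = []
          · subst hy0
            simp [sdel, hl_nil]
            norm_num
          · have hr := hl_rec hy0 hy
            rw [← hr, if_pos rfl, if_neg hy0, hl_nil]
            simp only [sdel, List.nil_append, List.length_nil, Nat.cast_zero]
            ring
        · by_cases hy0 : y = []
          · subst hy0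
            have hr := hl_rec hx0 hx
            rw [← hr, if_pos rfl, if_neg hx0, hl_nil]
            simp only [sdel, List.append_nil, List.length_nil, Nat.cast_zero]
            ring
          · have hr1 := hl_rec hx0 hx
            have hr2 := hl_rec hy0 hy
            rw [← hr1, ← hr2, if_neg hx0, if_neg hy0]
            ring
      · rw [hl_improper hy, mul_zero]
        apply Finset.sum_eq_zero
        intro a _
        have := not_proper_right (x := x ++ [a]) hy
        apply hl_improper
        simpa using this
    · rw [hl_improper hx, zero_mul]
      apply Finset.sum_eq_zero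
      intro a _
      have := not_proper_left (y := a :: y) hx
      exact hl_improper this

/-- The Holroyd-Liggett weights are the word probabilities of a stationary 1-dependent
4-colouring. -/
theorem hl_wlaw : WLaw hl :=
  ⟨fun w => hl_nonneg _ w, hl_nil, fun _ hw => hl_improper hw, fun x y => hl_prod _ x y rfl⟩

/-- Deletion sums in terms of `List.eraseIdx`. -/
theorem sdel_eq_sum (f : List (Fin 4) → ℝ) (w : List (Fin 4)) :
    sdel f w = ∑ i ∈ Finset.range w.length, f (w.eraseIdx i) := by
  induction w generalizing f with
  | nil => simp [sdel]
  | cons a w ih =>
    simp only [sdel, List.length_cons]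
    rw [Finset.sum_range_succ', ih]
    simp only [List.eraseIdx_cons_succ, List.eraseIdx_zero, List.tail_cons]
    ring

end Pool.Agent.H588R3.FC
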