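import Mathlib
import Pool.Agent.H588R3.FC.Indep

set_option autoImplicit false

open MeasureTheory ProbabilityTheory Filter Topology
open scoped ENNReal

/-!
# Laws of stationary 1-dependent 4-colourings as measures
-/

namespace Pool.Agent.H588R3.FC

theorem comap_restrict (A : Set ℤ) :
    MeasurableSpace.comap (fun (x : ℤ → Fin 4) (a : A) => x a) MeasurableSpace.pi =
      ⨆ a ∈ A, MeasurableSpace.comap (fun x : ℤ → Fin 4 => x a) (⊤ : MeasurableSpace (Fin 4)) := by
  unfold MeasurableSpace.pi
  rw [MeasurableSpace.comap_iSup]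
  simp only [MeasurableSpace.comap_comp]
  rw [iSup_subtype']
  rfl

theorem indep_iff (A B : Set ℤ) (μ : Measure (ℤ → Fin 4)) :
    Indep (⨆ a ∈ A, MeasurableSpace.comap (fun x : ℤ → Fin 4 => x a) (⊤ : MeasurableSpace (Fin 4)))
      (⨆ b ∈ B, MeasurableSpace.comap (fun x : ℤ → Fin 4 => x b) (⊤ : MeasurableSpace (Fin 4))) μ ↔
    IndepFun (fun (x : ℤ → Fin 4) (a : A) => x a) (fun (x : ℤ → Fin 4) (b : B) => x b) μ := by
  rw [IndepFun_iff_Indep, ← comap_restrict, ← comap_restrict]

/-- `μ` is the law of a stationary 1-dependent 4-colouring of the integers. -/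
structure IsColoringLaw (μ : Measure (ℤ → Fin 4)) : Prop where
  prob : IsProbabilityMeasure μ
  stationary : Measure.map (fun x : ℤ → Fin 4 => fun n : ℤ => x (n + 1)) μ = μ
  coloring : ∀ᵐ x ∂μ, ∀ n : ℤ, x n ≠ x (n + 1)
  dependence : ∀ A B : Set ℤ, (∀ a ∈ A, ∀ b ∈ B, 1 < |a - b|) →
    Indep (⨆ a ∈ A, MeasurableSpace.comap (fun x : ℤ → Fin 4 => x a) (⊤ : MeasurableSpace (Fin 4)))
      (⨆ b ∈ B, MeasurableSpace.comap (fun x : ℤ → Fin 4 => x b) (⊤ : MeasurableSpace (Fin 4))) μ

theorem law_of_win {P : List (Fin 4) → ℝ} (hP : WLaw P) {κ : Measure (ℤ → Fin 4)}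
    (hκ : IsProbabilityMeasure κ)
    (h : ∀ (a : ℤ) (w : List (Fin 4)), κ {x | win x a w.length = w} = q P w) :
    IsColoringLaw κ :=
  ⟨hκ, stat_of_win h, proper_of_win hP h, fun A B hd => (indep_iff A B κ).2 (indep_sets hP h A B hd)⟩

/-- The word probabilities of a measure. -/
noncomputable def wp (μ : Measure (ℤ → Fin 4)) (w : List (Fin 4)) : ℝ :=
  μ.real {x | win x 0 w.length = w}

variable {μ : Measure (ℤ → Fin 4)}

theorem shift_nat (hμ : IsColoringLaw μ) (n : ℕ) (a : ℤ) (w : List (Fin 4)) :
    μ {x | win x (a + n) w.length = w} = μ {x | win x a w.length = w} := by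
  induction n with
  | zero => simp
  | succ n ih =>
    rw [← ih]
    conv_rhs => rw [← hμ.stationary]
    rw [Measure.map_apply measurable_shift (measurableSet_win _ _ _)]
    congr 1
    ext x
    show win x (a + ((n + 1 : ℕ) : ℤ)) w.length = w ↔ win (fun k => x (k + 1)) (a + n) w.length = w
    rw [win_shift]
    push_cast
    rw [add_assoc]

theorem shift_int (hμ : IsColoringLaw μ) (a : ℤ) (w : List (Fin 4)) :
    μ {x | win x a w.length = w} = μ {x | win x 0 w.length = w} := by
  rcases le_total 0 a with h | h
  · obtain ⟨n, rfl⟩ := Int.eq_ofNat_of_zero_le h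
    have := shift_nat hμ n 0 w
    rwa [zero_add] at this
  · have h' : 0 ≤ -a := by omega
    obtain ⟨n, hn⟩ := Int.eq_ofNat_of_zero_le h'
    have := shift_nat hμ n a w
    have e : a + (n : ℤ) = 0 := by omega
    rw [e] at this
    exact this.symm

theorem win_of_law (hμ : IsColoringLaw μ) (a : ℤ) (w : List (Fin 4)) :
    μ {x | win x a w.length = w} = q (wp μ) w := by
  have := hμ.prob
  rw [shift_int hμ]
  unfold q wp
  rw [ofReal_measureReal]

theorem wp_real (hμ : IsColoringLaw μ) (a : ℤ) (w : List (Fin 4)) :
    μ.real {x | win x a w.length = w} = wp μ w := by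
  unfold wp Measure.real
  rw [shift_int hμ]

/-- A one-letter extension splits a cylinder event. -/
theorem iUnion_win (a : ℤ) (u v : List (Fin 4)) :
    {x : ℤ → Fin 4 | win x a u.length = u ∧ win x (a + u.length + 1) v.length = v} =
      ⋃ c : Fin 4, {x | win x a (u ++ c :: v).length = u ++ c :: v} := by
  ext x
  rw [Set.mem_iUnion]
  have hl : ∀ c : Fin 4, (u ++ c :: v).length = u.length + (1 + v.length) := by
    intro c; simp; omega
  have hsplit : win x a (u.length + (1 + v.length)) =
      win x a u.length ++ ([x (a + u.length)] ++ win x (a + u.length + 1) v.length) := by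
    rw [win_append x a u.length, win_append x _ 1, win_one]
    simp
  constructor
  · rintro ⟨h1, h2⟩
    refine ⟨x (a + u.length), ?_⟩
    show win x a (u ++ x (a + u.length) :: v).length = u ++ x (a + u.length) :: v
    rw [hl, hsplit, h1, h2]
    rfl
  · rintro ⟨c, hc⟩
    have hc' : win x a (u ++ c :: v).length = u ++ c :: v := hc
    rw [hl, hsplit] at hc'
    have h1 := List.append_inj hc' (by rw [win_length])
    refine ⟨h1.1, ?_⟩
    have h2 := h1.2
    simp only [List.singleton_append, List.cons.injEq] at h2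
    exact h2.2

theorem sum_win (hμ : IsColoringLaw μ) (a : ℤ) (u v : List (Fin 4)) :
    ∑ c : Fin 4, wp μ (u ++ c :: v) =
      μ.real {x : ℤ → Fin 4 | win x a u.length = u ∧ win x (a + u.length + 1) v.length = v} := by
  have := hμ.prob
  rw [iUnion_win, measureReal_iUnion_fintype]
  · exact Finset.sum_congr rfl (fun c _ => (wp_real hμ a _).symm)
  · intro c c' hcc'
    rw [Function.onFun, Set.disjoint_left]
    intro x hx hx'
    have h1 : win x a (u ++ c :: v).length = u ++ c :: v := hx
    have h2 : win x a (u ++ c' :: v).length = u ++ c' :: v := hx'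
    have hl : (u ++ c :: v).length = (u ++ c' :: v).length := by simp
    rw [hl, h2] at h1
    apply hcc'
    have := List.append_cancel_left h1
    simp only [List.cons.injEq, and_true] at this
    exact this.symm
  · intro c
    exact measurableSet_win _ _ _

local instance instMSL'' : MeasurableSpace (List (Fin 4)) := ⊤

local instance instDMSL'' : DiscreteMeasurableSpace (List (Fin 4)) := ⟨fun _ => trivial⟩

theorem measurable_win'' (a : ℤ) (n : ℕ) : Measurable (fun x : ℤ → Fin 4 => win x a n) := by
  apply measurable_to_countable'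
  intro w
  exact measurableSet_win a n w

theorem win_indep (hμ : IsColoringLaw μ) (a : ℤ) (m n : ℕ) :
    IndepFun (fun x : ℤ → Fin 4 => win x a m) (fun x : ℤ → Fin 4 => win x (a + m + 1) n) μ := by
  let A : Set ℤ := Set.Ico a (a + m)
  let B : Set ℤ := Set.Ico (a + m + 1) (a + m + 1 + n)
  have hd : ∀ i ∈ A, ∀ j ∈ B, (1 : ℤ) < |i - j| := by
    intro i hi j hj
    have h1 := hi.2
    have h2 := hj.1
    rw [abs_of_nonpos (by linarith)]
    linarith
  have key := (indep_iff A B μ).1 (hμ.dependence A B hd)
  have e1 : (fun x : ℤ → Fin 4 => win x a m) =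
      (fun (z : A → Fin 4) => (List.range m).map (fun i : ℕ =>
        if h : (a + i) ∈ A then z ⟨a + i, h⟩ else 0)) ∘ (fun (x : ℤ → Fin 4) (i : A) => x i) := by
    funext x
    simp only [Function.comp_apply, win]
    apply List.map_congr_left
    intro i hi
    have h1 := List.mem_range.1 hi
    have h2 : (a + (i : ℤ)) ∈ A := ⟨by omega, by omega⟩
    rw [dif_pos h2]
  have e2 : (fun x : ℤ → Fin 4 => win x (a + m + 1) n) =
      (fun (z : B → Fin 4) => (List.range n).map (fun i : ℕ =>
        if h : (a + m + 1 + i) ∈ B then z ⟨a + m + 1 + i, h⟩ else 0)) ∘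
          (fun (x : ℤ → Fin 4) (i : B) => x i) := by
    funext x
    simp only [Function.comp_apply, win]
    apply List.map_congr_left
    intro i hi
    have h1 := List.mem_range.1 hi
    have h2 : (a + m + 1 + (i : ℤ)) ∈ B := ⟨by omega, by omega⟩
    rw [dif_pos h2]
  have hA : Finite A := (Set.finite_Ico _ _)
  have hB : Finite B := (Set.finite_Ico _ _)
  have : DiscreteMeasurableSpace (A → Fin 4) := MeasurableSingletonClass.toDiscreteMeasurableSpace
  have : DiscreteMeasurableSpace (B → Fin 4) := MeasurableSingletonClass.toDiscreteMeasurableSpace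
  rw [e1, e2]
  exact key.comp Measurable.of_discrete Measurable.of_discrete

theorem wlaw_of_law (hμ : IsColoringLaw μ) : WLaw (wp μ) := by
  have hp := hμ.prob
  refine ⟨?_, ?_, ?_, ?_⟩
  · intro w
    exact measureReal_nonneg
  · unfold wp
    have e : {x : ℤ → Fin 4 | win x 0 ([] : List (Fin 4)).length = []} = Set.univ := by
      ext x; simp [win]
    rw [e]; simp
  · intro w hw
    unfold wp Measure.real
    have : μ {x | win x 0 w.length = w} = 0 := by
      have h := hμ.coloring
      rw [ae_iff] at h
      apply measure_mono_null _ h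
      intro x hx hx'
      apply hw
      have hx2 : win x 0 w.length = w := hx
      rw [← hx2]
      unfold Proper win
      rw [List.isChain_iff_getElem]
      intro i hi
      simp only [List.getElem_map, List.getElem_range]
      have := hx' (0 + (i : ℤ))
      push_cast
      rw [← add_assoc]
      exact this
    rw [this]; simp
  · intro u v
    rw [sum_win hμ 0 u v, ← wp_real hμ (0 + u.length + 1) v]
    unfold wp
    have h6 := (win_indep hμ 0 u.length v.length).measure_inter_preimage_eq_mul
      {u} {v} MeasurableSet.of_discrete MeasurableSet.of_discrete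
    unfold Measure.real
    rw [← ENNReal.toReal_mul]
    congr 1

end Pool.Agent.H588R3.FC
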