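import Mathlib
import Pool.Agent.H588R3.FC.Law
import Pool.Agent.H588R3.FC.HLaw

set_option autoImplicit false

open MeasureTheory ProbabilityTheory Filter Topology
open scoped ENNReal

/-!
# The space of laws of stationary 1-dependent 4-colourings
-/

namespace Pool.Agent.H588R3.FC

/-- The set of laws of stationary 1-dependent 4-colourings of the integers, as a subset of the
space of probability measures on `(Fin 4)^ℤ` with its weak topology. -/
def Laws : Set (ProbabilityMeasure (ℤ → Fin 4)) :=
  {μ | IsColoringLaw (μ : Measure (ℤ → Fin 4))}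

theorem continuous_winProb (a : ℤ) (w : List (Fin 4)) :
    Continuous (fun μ : ProbabilityMeasure (ℤ → Fin 4) =>
      (μ : Measure (ℤ → Fin 4)).real {x | win x a w.length = w}) := by
  have hclopen : IsClopen {x : ℤ → Fin 4 | win x a w.length = w} :=
    isClopen_of_dependsOn (dependsOn_win a w.length w)
  rw [continuous_iff_continuousAt]
  intro μ
  have h1 : Tendsto (fun μ : ProbabilityMeasure (ℤ → Fin 4) => μ) (𝓝 μ) (𝓝 μ) := tendsto_id
  have h2 := ProbabilityMeasure.tendsto_measure_of_null_frontier_of_tendsto' h1
    (E := {x : ℤ → Fin 4 | win x a w.length = w}) (by rw [hclopen.frontier_eq]; simp)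
  exact (ENNReal.tendsto_toReal (measure_ne_top _ _)).comp h2

/-- All window probabilities of a probability measure. -/
noncomputable def allProb (μ : ProbabilityMeasure (ℤ → Fin 4)) : ℤ × List (Fin 4) → ℝ :=
  fun p => (μ : Measure (ℤ → Fin 4)).real {x | win x p.1 p.2.length = p.2}

theorem continuous_allProb : Continuous allProb := by
  apply continuous_pi
  intro p
  exact continuous_winProb p.1 p.2

theorem injective_allProb : Function.Injective allProb := by
  intro μ ν h
  apply Subtype.ext
  haveI : IsProbabilityMeasure (μ.1 : Measure (ℤ → Fin 4)) := μ.2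
  haveI : IsProbabilityMeasure (ν.1 : Measure (ℤ → Fin 4)) := ν.2
  apply ext_win (μ := μ.1) (ν := ν.1)
  intro a w
  have h1 := congrFun h (a, w)
  have h2 : (μ : Measure (ℤ → Fin 4)).real {x | win x a w.length = w} =
      (ν : Measure (ℤ → Fin 4)).real {x | win x a w.length = w} := h1
  exact (measureReal_eq_measureReal_iff (measure_ne_top _ _) (measure_ne_top _ _)).1 h2

theorem isEmbedding_allProb : IsEmbedding allProb :=
  (continuous_allProb.isClosedEmbedding injective_allProb).isEmbedding

/-- The space of word laws with the topology of pointwise convergence. -/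
abbrev WSpace : Type := {P : List (Fin 4) → ℝ // WLaw P}

/-- The measure with given word probabilities. -/
noncomputable def toPM (P : WSpace) : ProbabilityMeasure (ℤ → Fin 4) :=
  ⟨(exists_kappa P.2).choose, (exists_kappa P.2).choose_spec.1⟩

theorem toPM_win (P : WSpace) (a : ℤ) (w : List (Fin 4)) :
    (toPM P : Measure (ℤ → Fin 4)) {x | win x a w.length = w} = q P.1 w :=
  (exists_kappa P.2).choose_spec.2 a w

theorem toPM_law (P : WSpace) : toPM P ∈ Laws :=
  law_of_win P.2 (toPM P).2 (toPM_win P)

theorem toPM_real (P : WSpace) (a : ℤ) (w : List (Fin 4)) :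
    (toPM P : Measure (ℤ → Fin 4)).real {x | win x a w.length = w} = P.1 w := by
  unfold Measure.real
  rw [toPM_win]
  exact ENNReal.toReal_ofReal (P.2.nonneg w)

theorem wp_toPM (P : WSpace) : wp (toPM P : Measure (ℤ → Fin 4)) = P.1 := by
  funext w
  exact toPM_real P 0 w

/-- The word law of a law. -/
noncomputable def toWL (μ : Laws) : WSpace := ⟨wp (μ.1 : Measure (ℤ → Fin 4)), wlaw_of_law μ.2⟩

theorem toPM_toWL (μ : Laws) : toPM (toWL μ) = μ.1 := by
  apply Subtype.ext
  haveI : IsProbabilityMeasure (μ.1.1 : Measure (ℤ → Fin 4)) := μ.1.2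
  haveI : IsProbabilityMeasure ((toPM (toWL μ)).1 : Measure (ℤ → Fin 4)) := (toPM (toWL μ)).2
  apply ext_win (μ := (toPM (toWL μ)).1) (ν := μ.1.1)
  intro a w
  exact (toPM_win (toWL μ) a w).trans (win_of_law μ.2 a w).symm

theorem continuous_toPM : Continuous toPM := by
  rw [isEmbedding_allProb.continuous_iff]
  apply continuous_pi
  intro p
  have : (fun P : WSpace => allProb (toPM P) p) = fun P : WSpace => P.1 p.2 := by
    funext P
    exact toPM_real P p.1 p.2
  show Continuous (fun P : WSpace => allProb (toPM P) p)
  rw [this]
  exact (continuous_apply p.2).comp continuous_subtype_val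

theorem continuous_toWL : Continuous toWL := by
  apply Continuous.subtype_mk
  apply continuous_pi
  intro w
  exact (continuous_winProb 0 w).comp continuous_subtype_val

/-- Laws and word laws are the same thing. -/
noncomputable def lawHomeo : Laws ≃ₜ WSpace where
  toFun := toWL
  invFun P := ⟨toPM P, toPM_law P⟩
  left_inv μ := Subtype.ext (toPM_toWL μ)
  right_inv P := Subtype.ext (wp_toPM P)
  continuous_toFun := continuous_toWL
  continuous_invFun := continuous_toPM.subtype_mk _

theorem continuous_sdel {T : Type*} [TopologicalSpace T] (F : T → List (Fin 4) → ℝ)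
    (hF : ∀ m, Continuous (fun t => F t m)) (w : List (Fin 4)) :
    Continuous (fun t => sdel (F t) w) := by
  induction w generalizing F with
  | nil => simp only [sdel]; exact continuous_const
  | cons a w ih =>
    simp only [sdel]
    exact (hF w).add (ih (fun t m => F t (a :: m)) (fun m => hF _))

theorem continuous_C (k : ℕ) (w : List (Fin 4)) : Continuous (fun P : WSpace => C P.1 k w) := by
  induction k generalizing w with
  | zero =>
    simp only [C]
    exact (continuous_apply w).comp continuous_subtype_val
  | succ k ih =>
    cases w with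
    | nil => simp only [C]; exact continuous_const
    | cons a w =>
      simp only [C]
      by_cases h : Proper (a :: w)
      · simp only [if_pos h]
        exact (continuous_sdel (fun (P : WSpace) m => C P.1 k m) ih (a :: w)).div_const _
      · simp only [if_neg h]
        exact continuous_const

theorem continuous_fl2 (w : List (Fin 4)) :
    Continuous (fun p : ℝ × WSpace => fl p.2.1 p.1 w) := by
  unfold fl
  apply continuous_finsetSum
  intro k _
  have h1 := (continuous_C k w).comp (continuous_snd (X := ℝ) (Y := WSpace))
  have h2 : Continuous (fun p : ℝ × WSpace => (1 - p.1) ^ k) := by fun_prop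
  have h3 : Continuous (fun p : ℝ × WSpace => p.1 ^ (w.length + 1 - k)) := by fun_prop
  exact (h1.mul h2).mul h3

/-- The insertion flow as a map on the space of word laws. -/
noncomputable def flW (u : unitInterval) (P : WSpace) : WSpace :=
  ⟨fl P.1 (u : ℝ), fl_law P.2 u.2.1 u.2.2⟩

theorem continuous_flW : Continuous (fun p : unitInterval × WSpace => flW p.1 p.2) := by
  apply Continuous.subtype_mk
  apply continuous_pi
  intro w
  exact (continuous_fl2 w).comp
    ((continuous_subtype_val.comp continuous_fst).prodMk continuous_snd)

/-- The Holroyd-Liggett word law. -/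
noncomputable def hlW : WSpace := ⟨hl, hl_wlaw⟩

theorem flW_zero (P : WSpace) : flW 0 P = hlW := by
  apply Subtype.ext
  exact fl_zero P.2

theorem flW_one (P : WSpace) : flW 1 P = P := by
  apply Subtype.ext
  exact fl_one P.2

theorem contractible_WSpace : ContractibleSpace WSpace := by
  rw [contractible_iff_id_nullhomotopic]
  refine ⟨hlW, ⟨?_⟩⟩
  refine ⟨⟨fun p => flW (unitInterval.symm p.1) p.2, ?_⟩, ?_, ?_⟩
  · exact continuous_flW.comp
      ((unitInterval.continuous_symm.comp continuous_fst).prodMk continuous_snd)
  · intro P
    simp only [unitInterval.symm_zero]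
    exact flW_one P
  · intro P
    simp only [unitInterval.symm_one]
    exact flW_zero P

theorem contractible_laws : ContractibleSpace Laws :=
  haveI := contractible_WSpace
  lawHomeo.contractibleSpace

/-- Lower bound by the Holroyd-Liggett law. -/
theorem fl_ge {P : List (Fin 4) → ℝ} (hP : WLaw P) {u : ℝ} (hu : 0 ≤ u) (hu1 : u ≤ 1)
    (w : List (Fin 4)) : (1 - u) ^ (w.length + 1) * hl w ≤ fl P u w := by
  have h1 : 0 ≤ 1 - u := by linarith
  have h2 : (1 - u) ^ (w.length + 1) * hl w =
      C P (w.length + 1) w * (1 - u) ^ (w.length + 1) * u ^ (w.length + 1 - (w.length + 1)) := by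
    rw [C_top hP w]
    simp
    ring
  rw [h2]
  unfold fl
  exact Finset.single_le_sum (f := fun k => C P k w * (1 - u) ^ k * u ^ (w.length + 1 - k))
    (fun k _ => mul_nonneg (mul_nonneg (C_nonneg hP k w) (pow_nonneg h1 k)) (pow_nonneg hu _))
    (Finset.mem_range.2 (by omega))

end Pool.Agent.H588R3.FC
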